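import Pool.Agent.U398.MV.Stm2
import Pool.Agent.U671.MV.ID

set_option autoImplicit false

/-! Package IDS of project MV2: the Plancherel identity with Gaussian windows and a shift. -/

namespace Pool.Agent.U358.MV2.IDS

open MeasureTheory Filter Topology Set Complex Pool.Agent.U398.MV
open Pool.Agent.U671.MV.ID (V V_eq int_c int_s V_int V_cont2 kap kap_snd kap_int V_kap gauss_int
  gauss_val gauss_eq exp_le_one V_integrand_int)

noncomputable section

variable {Ω : Type} [MeasurableSpace Ω] {κ : Measure Ω} {W X Y : Ω → ℝ}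

/-- the integrand of the double integral -/
def G2 (W X Y : Ω → ℝ) (u : ℝ) (p : Ω × Ω) (t : ℝ) : ℝ :=
  W p.1 * W p.2 * (Real.cos (u * (X p.1 - Y p.2)) *
    (Real.exp (-(X p.1 - t) ^ 2 / 2) * Real.exp (-(Y p.2 - t) ^ 2 / 2)))

lemma re_eq [SFinite κ] (hW : Integrable W κ) (hX : Measurable X) (hY : Measurable Y) (u t : ℝ) :
    (V κ W X u t * (starRingEnd ℂ) (V κ W Y u t)).re = ∫ p, G2 W X Y u p t ∂(κ.prod κ) := by
  rw [V_eq hW hX, V_eq hW hY, map_add, map_mul, Complex.conj_ofReal, Complex.conj_ofReal,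
    Complex.conj_I]
  have h : ∀ A B A' B' : ℝ, (((A : ℂ) + (B : ℂ) * I) * ((A' : ℂ) + (B' : ℂ) * -I)).re =
      A * A' + B * B' := by
    intro A B A' B'
    simp
  rw [h, ← integral_prod_mul, ← integral_prod_mul,
    ← integral_add ((int_c hW hX u t).mul_prod (int_c hW hY u t))
      ((int_s hW hX u t).mul_prod (int_s hW hY u t))]
  refine integral_congr_ae (ae_of_all _ fun p => ?_)
  simp only [G2]
  rw [mul_sub, Real.cos_sub]
  ring

lemma G2_meas (hW : Integrable W κ) (hX : Measurable X) (hY : Measurable Y) [SFinite κ] (u : ℝ) :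
    AEStronglyMeasurable (Function.uncurry (G2 W X Y u))
      ((κ.prod κ).prod (volume : Measure ℝ)) := by
  have h1 : AEStronglyMeasurable (fun q : (Ω × Ω) × ℝ => W q.1.1 * W q.1.2)
      ((κ.prod κ).prod (volume : Measure ℝ)) :=
    (hW.mul_prod hW).aestronglyMeasurable.comp_fst
  have h2 : Measurable (fun q : (Ω × Ω) × ℝ => (Real.cos (u * (X q.1.1 - Y q.1.2)) *
    (Real.exp (-(X q.1.1 - q.2) ^ 2 / 2) * Real.exp (-(Y q.1.2 - q.2) ^ 2 / 2)))) := by
    fun_prop
  exact h1.mul h2.aestronglyMeasurable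

omit [MeasurableSpace Ω] in
lemma G2_norm (u : ℝ) (p : Ω × Ω) (t : ℝ) : ‖G2 W X Y u p t‖ ≤ |W p.1 * W p.2| *
    (Real.exp (-(X p.1 - t) ^ 2 / 2) * Real.exp (-(Y p.2 - t) ^ 2 / 2)) := by
  rw [Real.norm_eq_abs, G2, abs_mul]
  apply mul_le_mul_of_nonneg_left _ (abs_nonneg _)
  rw [abs_mul, abs_of_pos (mul_pos (Real.exp_pos _) (Real.exp_pos _))]
  exact mul_le_of_le_one_left (mul_pos (Real.exp_pos _) (Real.exp_pos _)).le
    (Real.abs_cos_le_one _)

lemma G2_int (hW : Integrable W κ) (hX : Measurable X) (hY : Measurable Y) [SFinite κ] (u : ℝ) :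
    Integrable (Function.uncurry (G2 W X Y u)) ((κ.prod κ).prod (volume : Measure ℝ)) := by
  rw [integrable_prod_iff (G2_meas hW hX hY u)]
  have hin : ∀ p : Ω × Ω, Integrable (fun t : ℝ => G2 W X Y u p t) := fun p =>
    ((gauss_int (X p.1) (Y p.2)).const_mul (W p.1 * W p.2 * Real.cos (u * (X p.1 - Y p.2)))).congr
      (ae_of_all _ fun t => by simp only [G2]; ring)
  refine ⟨ae_of_all _ fun p => hin p, ?_⟩
  refine Integrable.mono' (g := fun p : Ω × Ω => |W p.1 * W p.2| * Real.sqrt Real.pi)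
    ((hW.mul_prod hW).abs.mul_const _) (G2_meas hW hX hY u).norm.integral_prod_right'
    (ae_of_all _ fun p => ?_)
  rw [Real.norm_eq_abs, abs_of_nonneg (integral_nonneg fun t => norm_nonneg _)]
  calc ∫ t : ℝ, ‖Function.uncurry (G2 W X Y u) (p, t)‖
      ≤ ∫ t : ℝ, |W p.1 * W p.2| *
        (Real.exp (-(X p.1 - t) ^ 2 / 2) * Real.exp (-(Y p.2 - t) ^ 2 / 2)) :=
        integral_mono (hin p).norm ((gauss_int _ _).const_mul _) fun t => G2_norm u p t
    _ = |W p.1 * W p.2| * (Real.sqrt Real.pi * Real.exp (-(X p.1 - Y p.2) ^ 2 / 4)) := by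
        rw [integral_const_mul, gauss_val]
    _ ≤ _ := by
        apply mul_le_mul_of_nonneg_left _ (abs_nonneg _)
        apply mul_le_of_le_one_right (Real.sqrt_nonneg _)
        rw [Real.exp_le_one_iff]; nlinarith [sq_nonneg (X p.1 - Y p.2)]

/-- the kernel -/
def K2 (X Y : Ω → ℝ) (p : Ω × Ω) : ℝ := Real.sqrt Real.pi * Real.exp (-(X p.1 - Y p.2) ^ 2 / 4)

omit [MeasurableSpace Ω] in
lemma K2_nonneg (p : Ω × Ω) : 0 ≤ K2 X Y p := mul_nonneg (Real.sqrt_nonneg _) (Real.exp_pos _).le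

omit [MeasurableSpace Ω] in
lemma K2_le (p : Ω × Ω) : K2 X Y p ≤ Real.sqrt Real.pi := by
  apply mul_le_of_le_one_right (Real.sqrt_nonneg _)
  rw [Real.exp_le_one_iff]; nlinarith [sq_nonneg (X p.1 - Y p.2)]

/-- the correlation -/
def Co (κ : Measure Ω) (W X Y : Ω → ℝ) (u : ℝ) : ℝ :=
  (∫ t : ℝ, V κ W X u t * (starRingEnd ℂ) (V κ W Y u t)).re

lemma V_meas (hW : Integrable W κ) (hX : Measurable X) (u : ℝ) :
    AEStronglyMeasurable (fun t : ℝ => V κ W X u t) := by
  have h := (V_cont2 hW hX).comp (Continuous.prodMk_right u)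
  exact h.aestronglyMeasurable

lemma VV_bound (hW : Integrable W κ) (hX : Measurable X) (hY : Measurable Y) [SFinite κ] (u : ℝ) :
    Integrable (fun t : ℝ => (‖V κ W X u t‖ ^ 2 + ‖V κ W Y u t‖ ^ 2) / 2) :=
  ((V_int hW hX u).add (V_int hW hY u)).div_const 2

lemma VV_le (u t : ℝ) : ‖V κ W X u t * (starRingEnd ℂ) (V κ W Y u t)‖ ≤
    (‖V κ W X u t‖ ^ 2 + ‖V κ W Y u t‖ ^ 2) / 2 := by
  rw [norm_mul, RCLike.norm_conj]
  nlinarith [sq_nonneg (‖V κ W X u t‖ - ‖V κ W Y u t‖)]

lemma VV_int (hW : Integrable W κ) (hX : Measurable X) (hY : Measurable Y) [SFinite κ] (u : ℝ) :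
    Integrable (fun t : ℝ => V κ W X u t * (starRingEnd ℂ) (V κ W Y u t)) := by
  refine Integrable.mono' (VV_bound hW hX hY u) ?_ (ae_of_all _ fun t => VV_le u t)
  exact (V_meas hW hX u).mul (Complex.continuous_conj.comp_aestronglyMeasurable (V_meas hW hY u))

lemma Co_eq (hW : Integrable W κ) (hX : Measurable X) (hY : Measurable Y) [SFinite κ] (u : ℝ) :
    Co κ W X Y u = ∫ p, W p.1 * W p.2 * (Real.cos (u * (X p.1 - Y p.2)) * K2 X Y p)
      ∂(κ.prod κ) := by
  have h0 : Co κ W X Y u = ∫ t : ℝ, (V κ W X u t * (starRingEnd ℂ) (V κ W Y u t)).re :=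
    (integral_re (VV_int hW hX hY u)).symm
  rw [h0]
  simp_rw [re_eq hW hX hY]
  rw [integral_integral_swap (f := fun t p => G2 W X Y u p t)]
  · refine integral_congr_ae (ae_of_all _ fun p => ?_)
    simp only [G2, K2]
    rw [← gauss_val, integral_const_mul, integral_const_mul]
  · exact (G2_int hW hX hY u).swap

lemma Co_even (hW : Integrable W κ) (hX : Measurable X) (hY : Measurable Y) [SFinite κ] (u : ℝ) :
    Co κ W X Y (-u) = Co κ W X Y u := by
  rw [Co_eq hW hX hY, Co_eq hW hX hY]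
  simp_rw [neg_mul, Real.cos_neg]

lemma Co_cont (hW : Integrable W κ) (hX : Measurable X) (hY : Measurable Y) [SFinite κ] :
    Continuous fun u : ℝ => Co κ W X Y u := by
  simp_rw [Co_eq hW hX hY]
  refine continuous_of_dominated (bound := fun p => |W p.1 * W p.2| * Real.sqrt Real.pi) ?_ ?_
    ((hW.mul_prod hW).abs.mul_const _) ?_
  · intro u
    refine (hW.mul_prod hW).aestronglyMeasurable.mul ?_
    apply Measurable.aestronglyMeasurable
    unfold K2; fun_prop
  · intro u
    refine ae_of_all _ fun p => ?_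
    rw [Real.norm_eq_abs, abs_mul]
    apply mul_le_mul_of_nonneg_left _ (abs_nonneg _)
    rw [abs_mul, abs_of_nonneg (K2_nonneg p)]
    exact (mul_le_of_le_one_left (K2_nonneg p) (Real.abs_cos_le_one _)).trans (K2_le p)
  · refine ae_of_all _ fun p => ?_
    fun_prop

lemma Co_abs (hW : Integrable W κ) (hX : Measurable X) (hY : Measurable Y) [SFinite κ] (u : ℝ) :
    |Co κ W X Y u| ≤ ((∫ t : ℝ, ‖V κ W X u t‖ ^ 2) + ∫ t : ℝ, ‖V κ W Y u t‖ ^ 2) / 2 := by
  refine (Complex.abs_re_le_norm _).trans ?_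
  refine (norm_integral_le_of_norm_le (VV_bound hW hX hY u) (ae_of_all _ fun t => VV_le u t)).trans
    ?_
  rw [integral_div, integral_add (V_int hW hX u) (V_int hW hY u)]

/-! Integration over the frequency. -/

lemma freq_int2 (hW : Integrable W κ) (hX : Measurable X) (hY : Measurable Y) [SFinite κ]
    {r : ℝ → ℝ} (hr : Integrable r) :
    Integrable (fun q : ℝ × (Ω × Ω) => r q.1 * (W q.2.1 * W q.2.2 *
      (Real.cos (q.1 * (X q.2.1 - Y q.2.2)) * K2 X Y q.2)))
      ((volume : Measure ℝ).prod (κ.prod κ)) := by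
  have h0 : Integrable (fun q : ℝ × (Ω × Ω) => r q.1 * (W q.2.1 * W q.2.2))
      ((volume : Measure ℝ).prod (κ.prod κ)) := hr.mul_prod (hW.mul_prod hW)
  have h1 := h0.bdd_mul (f := fun q : ℝ × (Ω × Ω) =>
      Real.cos (q.1 * (X q.2.1 - Y q.2.2)) * K2 X Y q.2) (c := Real.sqrt Real.pi) (by
        apply Measurable.aestronglyMeasurable
        unfold K2; fun_prop) (ae_of_all _ fun q => by
      rw [Real.norm_eq_abs, abs_mul, abs_of_nonneg (K2_nonneg q.2)]
      exact (mul_le_of_le_one_left (K2_nonneg q.2) (Real.abs_cos_le_one _)).trans (K2_le q.2))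
  refine h1.congr (ae_of_all _ fun q => ?_)
  simp only; ring

lemma freq_integrable2 (hW : Integrable W κ) (hX : Measurable X) (hY : Measurable Y) [SFinite κ]
    {r : ℝ → ℝ} (hr : Integrable r) : Integrable (fun u : ℝ => r u * Co κ W X Y u) := by
  simp_rw [Co_eq hW hX hY, ← integral_const_mul]
  exact (freq_int2 hW hX hY hr).integral_prod_left

lemma freq_val2 (hW : Integrable W κ) (hX : Measurable X) (hY : Measurable Y) [SFinite κ]
    {r : ℝ → ℝ} (hr : Integrable r) : ∫ u : ℝ, r u * Co κ W X Y u =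
      ∫ p, W p.1 * W p.2 * (Real.sqrt Real.pi * ((∫ u : ℝ, r u * Real.cos (u * (X p.1 - Y p.2))) *
        Real.exp (-(X p.1 - Y p.2) ^ 2 / 4))) ∂(κ.prod κ) := by
  simp_rw [Co_eq hW hX hY, ← integral_const_mul]
  rw [integral_integral_swap (f := fun (u : ℝ) (p : Ω × Ω) => r u * (W p.1 * W p.2 *
      (Real.cos (u * (X p.1 - Y p.2)) * K2 X Y p))) (freq_int2 hW hX hY hr)]
  refine integral_congr_ae (ae_of_all _ fun p => ?_)
  simp only
  rw [← integral_mul_const, ← integral_const_mul, ← integral_const_mul]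
  refine integral_congr_ae (ae_of_all _ fun u => ?_)
  simp only [K2]; ring

/-! The convolutions with a kernel `g`. -/

/-- the convolution of `g` with the measure -/
def Lg (κ : Measure Ω) (W X : Ω → ℝ) (g : ℝ → ℝ) (t : ℝ) : ℝ := ∫ s, W s * g (t - X s) ∂κ

def H2 (W X Y : Ω → ℝ) (g : ℝ → ℝ) (p : Ω × Ω) (t : ℝ) : ℝ :=
  W p.1 * W p.2 * (g (t - X p.1) * g (t - Y p.2))

lemma L_mul [SFinite κ] (g : ℝ → ℝ) (t : ℝ) :
    Lg κ W X g t * Lg κ W Y g t = ∫ p, H2 W X Y g p t ∂(κ.prod κ) := by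
  rw [Lg, Lg, ← integral_prod_mul]
  refine integral_congr_ae (ae_of_all _ fun p => ?_)
  simp only [H2]; ring

lemma gp_int {g : ℝ → ℝ} (hg : Measurable g) (hgi : Integrable g) (hb : ∀ x, |g x| ≤ 1)
    (x y : ℝ) : Integrable (fun t : ℝ => g (t - x) * g (t - y)) := by
  have h := (hgi.comp_sub_right x).bdd_mul (f := fun t => g (t - y)) (c := 1)
    (hg.comp (measurable_id.sub_const y)).aestronglyMeasurable
    (ae_of_all _ fun t => by rw [Real.norm_eq_abs]; exact hb _)
  refine h.congr (ae_of_all _ fun t => ?_)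
  simp only; ring

lemma gp_val {g c : ℝ → ℝ} (hc : ∀ z : ℝ, ∫ t : ℝ, g t * g (t + z) = c z) (x y : ℝ) :
    ∫ t : ℝ, g (t - x) * g (t - y) = c (x - y) := by
  rw [← hc, ← integral_sub_right_eq_self (fun t => g t * g (t + (x - y))) x]
  refine integral_congr_ae (ae_of_all _ fun t => ?_)
  simp only
  rw [show t - x + (x - y) = t - y by ring]

lemma H2_meas (hW : Integrable W κ) (hX : Measurable X) (hY : Measurable Y) [SFinite κ]
    {g : ℝ → ℝ} (hg : Measurable g) :
    AEStronglyMeasurable (Function.uncurry (H2 W X Y g))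
      ((κ.prod κ).prod (volume : Measure ℝ)) := by
  have h1 : AEStronglyMeasurable (fun q : (Ω × Ω) × ℝ => W q.1.1 * W q.1.2)
      ((κ.prod κ).prod (volume : Measure ℝ)) :=
    (hW.mul_prod hW).aestronglyMeasurable.comp_fst
  have h2 : Measurable (fun q : (Ω × Ω) × ℝ => g (q.2 - X q.1.1) * g (q.2 - Y q.1.2)) := by
    apply Measurable.mul
    · exact hg.comp (measurable_snd.sub (hX.comp (measurable_fst.comp measurable_fst)))
    · exact hg.comp (measurable_snd.sub (hY.comp (measurable_snd.comp measurable_fst)))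
  exact h1.mul h2.aestronglyMeasurable

lemma H2_int (hW : Integrable W κ) (hX : Measurable X) (hY : Measurable Y) [SFinite κ]
    {g : ℝ → ℝ} (hg : Measurable g) (hgi : Integrable g) (hb : ∀ x, |g x| ≤ 1) :
    Integrable (Function.uncurry (H2 W X Y g)) ((κ.prod κ).prod (volume : Measure ℝ)) := by
  rw [integrable_prod_iff (H2_meas hW hX hY hg)]
  have hin : ∀ p : Ω × Ω, Integrable (fun t : ℝ => H2 W X Y g p t) := fun p =>
    (gp_int hg hgi hb _ _).const_mul _
  refine ⟨ae_of_all _ fun p => hin p, ?_⟩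
  refine Integrable.mono' (g := fun p : Ω × Ω => |W p.1 * W p.2| * ∫ t : ℝ, |g t|)
    ((hW.mul_prod hW).abs.mul_const _) (H2_meas hW hX hY hg).norm.integral_prod_right'
    (ae_of_all _ fun p => ?_)
  rw [Real.norm_eq_abs, abs_of_nonneg (integral_nonneg fun t => norm_nonneg _)]
  calc ∫ t : ℝ, ‖Function.uncurry (H2 W X Y g) (p, t)‖
      ≤ ∫ t : ℝ, |W p.1 * W p.2| * |g (t - X p.1)| := by
        refine integral_mono (hin p).norm ((hgi.comp_sub_right _).abs.const_mul _) fun t => ?_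
        simp only [Function.uncurry, H2, Real.norm_eq_abs]
        rw [abs_mul, abs_mul (g _)]
        apply mul_le_mul_of_nonneg_left _ (abs_nonneg _)
        exact mul_le_of_le_one_right (abs_nonneg _) (hb _)
    _ = _ := by
        rw [integral_const_mul, integral_sub_right_eq_self (fun t : ℝ => |g t|)]

lemma L_integrable (hW : Integrable W κ) (hX : Measurable X) (hY : Measurable Y) [SFinite κ]
    {g : ℝ → ℝ} (hg : Measurable g) (hgi : Integrable g) (hb : ∀ x, |g x| ≤ 1) :
    Integrable (fun t : ℝ => Lg κ W X g t * Lg κ W Y g t) := by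
  simp_rw [L_mul]
  exact (H2_int hW hX hY hg hgi hb).integral_prod_right

lemma L_val (hW : Integrable W κ) (hX : Measurable X) (hY : Measurable Y) [SFinite κ]
    {g c : ℝ → ℝ} (hg : Measurable g) (hgi : Integrable g) (hb : ∀ x, |g x| ≤ 1)
    (hc : ∀ z : ℝ, ∫ t : ℝ, g t * g (t + z) = c z) :
    ∫ t : ℝ, Lg κ W X g t * Lg κ W Y g t =
      ∫ p, W p.1 * W p.2 * c (X p.1 - Y p.2) ∂(κ.prod κ) := by
  simp_rw [L_mul]
  rw [integral_integral_swap (f := fun t p => H2 W X Y g p t)]
  · refine integral_congr_ae (ae_of_all _ fun p => ?_)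
    simp only [H2]
    rw [integral_const_mul, gp_val hc]
  · exact (H2_int hW hX hY hg hgi hb).swap

theorem plancherel2 (hW : Integrable W κ) (hX : Measurable X) (hY : Measurable Y) [SFinite κ]
    {g c r : ℝ → ℝ} (hg : Measurable g) (hgi : Integrable g) (hb : ∀ x, |g x| ≤ 1)
    (hc : ∀ z : ℝ, ∫ t : ℝ, g t * g (t + z) = c z) (hr : Integrable r)
    (hv : ∀ z, (∫ u : ℝ, r u * Real.cos (u * z)) * Real.exp (-z ^ 2 / 4) = c z) :
    (∫ t : ℝ, Lg κ W X g t * Lg κ W Y g t) =
      1 / Real.sqrt Real.pi * ∫ u : ℝ, r u * Co κ W X Y u := by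
  rw [L_val hW hX hY hg hgi hb hc, freq_val2 hW hX hY hr, ← integral_const_mul]
  refine integral_congr_ae (ae_of_all _ fun p => ?_)
  simp only
  rw [hv]
  have : Real.sqrt Real.pi ≠ 0 := (Real.sqrt_pos.2 Real.pi_pos).ne'
  field_simp

/-! The shift. -/

lemma V_shift (s u t : ℝ) :
    V κ W X u (t + s) = cexp (I * u * s) * V κ W (fun ω => X ω - s) u t := by
  unfold V
  rw [← integral_const_mul]
  refine integral_congr_ae (ae_of_all _ fun ω => ?_)
  simp only
  have h1 : cexp (I * u * X ω) = cexp (I * u * s) * cexp (I * u * ((X ω - s : ℝ) : ℂ)) := by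
    rw [← Complex.exp_add]; congr 1; push_cast; ring
  have h2 : cexp (-((X ω : ℂ) - ((t + s : ℝ) : ℂ)) ^ 2 / 2) =
      cexp (-(((X ω - s : ℝ) : ℂ) - t) ^ 2 / 2) := by
    congr 1; push_cast; ring
  rw [h1, h2]; ring

lemma Co_shift (s u : ℝ) :
    Cor (fun u t => V κ W X u t) s u = Co κ W X (fun ω => X ω - s) u := by
  unfold Cor Co
  rw [← integral_const_mul]
  congr 1
  refine integral_congr_ae (ae_of_all _ fun t => ?_)
  simp only
  rw [V_shift, map_mul]
  have h : cexp (I * u * s) * (starRingEnd ℂ) (cexp (I * u * s)) = 1 := by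
    rw [Complex.mul_conj, Complex.normSq_eq_norm_sq, Complex.norm_exp]
    simp
  linear_combination (V κ W X u t * (starRingEnd ℂ) (V κ W (fun ω => X ω - s) u t)) * h

/-! The kernel `gg`. -/

lemma gg_meas : Measurable gg := by
  unfold gg
  exact Measurable.ite (measurableSet_le measurable_const measurable_id) (by fun_prop) (by fun_prop)

lemma gg_bd (x : ℝ) : |gg x| ≤ 1 := by
  unfold gg
  split_ifs with h
  · have h1 : 0 ≤ max 0 (1 - x) := le_max_left _ _
    have h2 : max 0 (1 - x) ≤ 1 := max_le zero_le_one (by linarith)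
    rw [abs_of_nonneg (by positivity)]
    nlinarith
  · have h1 : 0 ≤ max 0 (1 + x) := le_max_left _ _
    have h2 : max 0 (1 + x) ≤ 1 := max_le zero_le_one (by linarith)
    rw [abs_le]
    constructor <;> nlinarith

lemma gg_zero {x : ℝ} (hx : x ∉ Icc (-1 : ℝ) 1) : gg x = 0 := by
  unfold gg
  rw [mem_Icc, not_and_or, not_le, not_le] at hx
  split_ifs with h
  · rw [max_eq_left (by rcases hx with h1 | h1 <;> linarith)]; norm_num
  · rw [max_eq_left (by rcases hx with h1 | h1 <;> linarith)]; norm_num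

lemma gg_integrable : Integrable gg := by
  have h : IntegrableOn gg (Icc (-1 : ℝ) 1) := by
    refine Measure.integrableOn_of_bounded (M := 1) (by simp) gg_meas.aestronglyMeasurable ?_
    exact ae_of_all _ fun x => by rw [Real.norm_eq_abs]; exact gg_bd x
  exact (integrableOn_iff_integrable_of_support_subset (fun x hx => by
    by_contra h1
    exact hx (gg_zero h1))).1 h

variable {ι : Type} (S : Finset ι) (w x : ι → ℝ) (lam a b : ℝ)

lemma L_kap (hab : a ≤ b) (t : ℝ) :
    Lg (kap S w x lam a b) Prod.snd Prod.fst gg t = Lf S w x lam a b gg t := by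
  unfold Lg
  have hi : Integrable (fun p : ℝ × ℝ => p.2 * gg (t - p.1)) (kap S w x lam a b) := by
    have h1 := (kap_snd S w x lam a b).bdd_mul (f := fun p : ℝ × ℝ => gg (t - p.1)) (c := 1)
      (gg_meas.comp (measurable_const.sub measurable_fst)).aestronglyMeasurable
      (ae_of_all _ fun p => by rw [Real.norm_eq_abs]; exact gg_bd _)
    refine h1.congr (ae_of_all _ fun p => ?_)
    simp only; ring
  rw [kap_int _ _ _ _ _ _ hi, Lf, intervalIntegral.integral_of_le hab]
  dsimp only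
  rw [integral_const_mul]
  ring

lemma L_shift (g : ℝ → ℝ) (s t : ℝ) :
    Lg κ W X g (t + s) = Lg κ W (fun ω => X ω - s) g t := by
  unfold Lg
  refine integral_congr_ae (ae_of_all _ fun ω => ?_)
  simp only
  rw [show t + s - X ω = t - (X ω - s) by ring]

lemma V_norm_shift (s u : ℝ) :
    ∫ t : ℝ, ‖V κ W (fun ω => X ω - s) u t‖ ^ 2 = ∫ t : ℝ, ‖V κ W X u t‖ ^ 2 := by
  rw [← integral_add_right_eq_self (fun t : ℝ => ‖V κ W X u t‖ ^ 2) s]
  refine integral_congr_ae (ae_of_all _ fun t => ?_)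
  simp only
  rw [V_shift, norm_mul, Complex.norm_exp]
  simp

/-- Package IDS. -/
theorem t_IDS : S_RHO → S_RQ → S_IDS := by
  rintro hc ⟨C, -, -, hr, -, -, -, -, hv⟩ ι S w x lam a b hab
  have hW := kap_snd S w x lam a b
  have hX : Measurable (Prod.fst : ℝ × ℝ → ℝ) := measurable_fst
  have hVf : Vf S w x lam a b = fun u t => V (kap S w x lam a b) Prod.snd Prod.fst u t := by
    funext u t; exact (V_kap S w x lam a b hab u t).symm
  have hLf : Lf S w x lam a b gg = fun t => Lg (kap S w x lam a b) Prod.snd Prod.fst gg t := by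
    funext t; exact (L_kap S w x lam a b hab t).symm
  rw [hVf, hLf]
  refine ⟨?_, fun s => ?_⟩
  · have h := L_integrable hW hX hX gg_meas gg_integrable gg_bd
    refine h.congr (ae_of_all _ fun t => ?_)
    simp only; ring
  · have hY : Measurable (fun p : ℝ × ℝ => p.1 - s) := measurable_fst.sub_const s
    simp_rw [Co_shift, L_shift]
    refine ⟨fun u => Co_even hW hX hY u, fun u => ?_, Co_cont hW hX hY,
      freq_integrable2 hW hX hY hr, plancherel2 hW hX hY gg_meas gg_integrable gg_bd hc hr hv⟩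
    refine (Co_abs hW hX hY u).trans (le_of_eq ?_)
    rw [V_norm_shift]
    ring

end

end Pool.Agent.U358.MV2.IDS
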